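import Mathlib

/-!
# CH-31, part 1: hyperbolic matrices, factorization and adapted norms
-/

set_option autoImplicit false
set_option maxHeartbeats 1000000

namespace Pool.Agent.J6H97.CH31

open Polynomial

theorem factor : ∀ (d : ℕ) (p : ℝ[X]), p.natDegree = d → p ≠ 0 → (∀ μ : ℂ, aeval μ p = 0 → ‖μ‖ ≠ 1) →
    ∃ f g : ℝ[X], p = f * g ∧ (∀ μ : ℂ, aeval μ f = 0 → ‖μ‖ < 1) ∧ (∀ μ : ℂ, aeval μ g = 0 → 1 < ‖μ‖) := by
  intro d
  induction d using Nat.strong_induction_on with
  | _ d ih =>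
    intro p hd hp hr
    by_cases h0 : d = 0
    · subst h0
      rw [Polynomial.natDegree_eq_zero] at hd
      obtain ⟨c, rfl⟩ := hd
      have hc : c ≠ 0 := by
        rintro rfl
        exact hp (map_zero C)
      refine ⟨C c, 1, by rw [mul_one], ?_, ?_⟩
      · intro μ h
        rw [aeval_C] at h
        exact absurd h (by simpa using hc)
      · intro μ h
        rw [map_one] at h
        exact absurd h one_ne_zero
    · have hdeg : p.degree ≠ 0 := by
        intro h
        exact h0 (by rw [← hd]; exact natDegree_eq_of_degree_eq_some h)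
      obtain ⟨z, hz⟩ := IsAlgClosed.exists_aeval_eq_zero ℂ p hdeg
      -- a divisor with roots of modulus ‖z‖
      obtain ⟨e, he, he1, he2⟩ : ∃ e : ℝ[X], e ∣ p ∧ 0 < e.natDegree ∧ ∀ μ : ℂ, aeval μ e = 0 → ‖μ‖ = ‖z‖ := by
        by_cases him : z.im = 0
        · have hzr : z = (z.re : ℂ) := by
            apply Complex.ext <;> simp [him]
          refine ⟨X - C z.re, ?_, by rw [natDegree_X_sub_C]; exact one_pos, ?_⟩
          · rw [dvd_iff_isRoot, IsRoot.def]
            rw [hzr] at hz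
            have h1 : aeval (z.re : ℂ) p = ((p.eval z.re : ℝ) : ℂ) := by
              have := aeval_algebraMap_apply ℂ z.re p
              simpa using this
            rw [h1] at hz
            exact_mod_cast hz
          · intro μ h
            rw [map_sub, aeval_X, aeval_C, sub_eq_zero] at h
            rw [h, hzr]
            rfl
        · refine ⟨_, quadratic_dvd_of_aeval_eq_zero_im_ne_zero p hz him, ?_, ?_⟩
          · have : (X ^ 2 - C (2 * z.re) * X + C (‖z‖ ^ 2) : ℝ[X]).natDegree = 2 := by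
              compute_degree!
            rw [this]
            norm_num
          · intro μ h
            have h1 : (μ - z) * (μ - (starRingEnd ℂ) z) = 0 := by
              rw [← h]
              simp only [map_add, map_sub, map_mul, map_pow, aeval_X, aeval_C]
              have h2 : z + (starRingEnd ℂ) z = ((2 * z.re : ℝ) : ℂ) := Complex.add_conj z
              have h3 : z * (starRingEnd ℂ) z = ((‖z‖ ^ 2 : ℝ) : ℂ) := by
                rw [Complex.mul_conj, Complex.normSq_eq_norm_sq]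
              have h5 : (algebraMap ℝ ℂ) (‖z‖) ^ 2 = ((‖z‖ ^ 2 : ℝ) : ℂ) := by
                push_cast; rfl
              have h6 : (algebraMap ℝ ℂ) 2 * (algebraMap ℝ ℂ) z.re = ((2 * z.re : ℝ) : ℂ) := by
                push_cast; rfl
              rw [h5]
              linear_combination (-1 : ℂ) * μ * h2 + h3 + μ * h6
            rcases mul_eq_zero.mp h1 with h2 | h2
            · rw [sub_eq_zero.mp h2]
            · rw [sub_eq_zero.mp h2]
              exact RCLike.norm_conj z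
      obtain ⟨p', rfl⟩ := he
      have he0 : e ≠ 0 := left_ne_zero_of_mul hp
      have hp0 : p' ≠ 0 := right_ne_zero_of_mul hp
      have hdeg' : (e * p').natDegree = e.natDegree + p'.natDegree := natDegree_mul he0 hp0
      obtain ⟨f, g, hfg, hf, hg⟩ := ih p'.natDegree (by omega) p' rfl hp0 (fun μ hμ => hr μ (by
        rw [map_mul, hμ, mul_zero]))
      have hz1 := hr z hz
      rcases lt_or_gt_of_ne hz1 with h | h
      · refine ⟨e * f, g, by rw [hfg]; ring, ?_, hg⟩
        intro μ hμ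
        rw [map_mul] at hμ
        rcases mul_eq_zero.mp hμ with h1 | h1
        · rw [he2 μ h1]; exact h
        · exact hf μ h1
      · refine ⟨f, e * g, by rw [hfg]; ring, hf, ?_⟩
        intro μ hμ
        rw [map_mul] at hμ
        rcases mul_eq_zero.mp hμ with h1 | h1
        · rw [he2 μ h1]; exact h
        · exact hg μ h1

/-- complex matrices -/
abbrev MC (n : ℕ) : Type := Matrix (Fin (n + 1)) (Fin (n + 1)) ℂ

attribute [local instance] Matrix.linftyOpNormedRing Matrix.linftyOpNormedAlgebra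

theorem pow_small {n : ℕ} (S : MC n) (h : ∀ μ ∈ spectrum ℂ S, ‖μ‖ < 1) :
    ∃ κ : ℝ, 0 < κ ∧ κ < 1 ∧ ∃ N : ℕ, 1 ≤ N ∧ ‖S ^ N‖ ≤ κ ^ N := by
  haveI : CompleteSpace (MC n) := FiniteDimensional.complete ℂ (MC n)
  have h1 : spectralRadius ℂ S < ((1 : NNReal) : ENNReal) :=
    spectrum.spectralRadius_lt_of_forall_lt S (fun z hz => by
      have := h z hz
      exact_mod_cast this)
  obtain ⟨r, h2, h3⟩ := ENNReal.lt_iff_exists_nnreal_btwn.mp h1
  have h4 := spectrum.pow_nnnorm_pow_one_div_tendsto_nhds_spectralRadius S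
  have h5 := (h4.eventually_lt_const h2).and (Filter.eventually_ge_atTop 1)
  obtain ⟨N, h6, h7⟩ := h5.exists
  have hr0 : 0 < r := by
    have : (0 : ENNReal) < r := lt_of_le_of_lt zero_le h2
    exact_mod_cast this
  have hr1 : r < 1 := by exact_mod_cast h3
  refine ⟨r, by exact_mod_cast hr0, by exact_mod_cast hr1, N, h7, ?_⟩
  have h8 : ((‖S ^ N‖₊ : NNReal) : ENNReal) ≤ (r : ENNReal) ^ N := by
    have h9 : ((‖S ^ N‖₊ : NNReal) : ENNReal) =
        ((((‖S ^ N‖₊ : NNReal) : ENNReal)) ^ (1 / (N : ℝ))) ^ N := by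
      rw [← ENNReal.rpow_natCast, ← ENNReal.rpow_mul, one_div, inv_mul_cancel₀, ENNReal.rpow_one]
      exact_mod_cast (by omega : N ≠ 0)
    rw [h9]
    exact pow_le_pow_left' h6.le N
  have h10 : ‖S ^ N‖₊ ≤ r ^ N := by exact_mod_cast h8
  exact_mod_cast h10

/-- adapted norm -/
noncomputable def nrm {n : ℕ} (S Q : MC n) (κ : ℝ) (N : ℕ) (v : Fin (n + 1) → ℂ) : ℝ :=
  ∑ i ∈ Finset.range N, (κ ^ i)⁻¹ * ‖(S ^ i * Q).mulVec v‖

section
variable {n : ℕ} {S Q T : MC n} {κ : ℝ} {N : ℕ}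

theorem nrm_nonneg (hκ : 0 < κ) (v : Fin (n + 1) → ℂ) : 0 ≤ nrm S Q κ N v :=
  Finset.sum_nonneg fun _ _ => mul_nonneg (inv_nonneg.mpr (pow_nonneg hκ.le _)) (norm_nonneg _)

theorem nrm_zero : nrm S Q κ N 0 = 0 := by
  unfold nrm
  simp

theorem nrm_neg (v : Fin (n + 1) → ℂ) : nrm S Q κ N (-v) = nrm S Q κ N v := by
  unfold nrm
  simp [Matrix.mulVec_neg]

theorem nrm_add (hκ : 0 < κ) (v w : Fin (n + 1) → ℂ) :
    nrm S Q κ N (v + w) ≤ nrm S Q κ N v + nrm S Q κ N w := by
  unfold nrm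
  rw [← Finset.sum_add_distrib]
  refine Finset.sum_le_sum fun i _ => ?_
  rw [← mul_add, Matrix.mulVec_add]
  exact mul_le_mul_of_nonneg_left (norm_add_le _ _) (inv_nonneg.mpr (pow_nonneg hκ.le _))

theorem nrm_congr {v w : Fin (n + 1) → ℂ} (h : Q.mulVec v = Q.mulVec w) :
    nrm S Q κ N v = nrm S Q κ N w := by
  unfold nrm
  refine Finset.sum_congr rfl fun i _ => ?_
  rw [← Matrix.mulVec_mulVec, h, Matrix.mulVec_mulVec]

theorem nrm_ge (hκ : 0 < κ) (hN : 1 ≤ N) (v : Fin (n + 1) → ℂ) : ‖Q.mulVec v‖ ≤ nrm S Q κ N v := by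
  have h := Finset.single_le_sum (f := fun i => (κ ^ i)⁻¹ * ‖(S ^ i * Q).mulVec v‖)
    (fun _ _ => mul_nonneg (inv_nonneg.mpr (pow_nonneg hκ.le _)) (norm_nonneg _))
    (Finset.mem_range.mpr (show 0 < N by omega))
  unfold nrm
  simpa using h

theorem nrm_le (hκ : 0 < κ) (v : Fin (n + 1) → ℂ) :
    nrm S Q κ N v ≤ (∑ i ∈ Finset.range N, (κ ^ i)⁻¹ * ‖S ^ i * Q‖) * ‖v‖ := by
  unfold nrm
  rw [Finset.sum_mul]
  refine Finset.sum_le_sum fun i _ => ?_
  rw [mul_assoc]
  exact mul_le_mul_of_nonneg_left (Matrix.linfty_opNorm_mulVec _ _)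
    (inv_nonneg.mpr (pow_nonneg hκ.le _))

theorem nrm_contr (hκ : 0 < κ) (hN : ‖S ^ N‖ ≤ κ ^ N) (h : Q * T = S * Q) (v : Fin (n + 1) → ℂ) :
    nrm S Q κ N (T.mulVec v) ≤ κ * nrm S Q κ N v := by
  set a : ℕ → ℝ := fun i => (κ ^ i)⁻¹ * ‖(S ^ i * Q).mulVec v‖ with ha
  have h1 : nrm S Q κ N (T.mulVec v) = κ * ∑ i ∈ Finset.range N, a (i + 1) := by
    unfold nrm
    rw [Finset.mul_sum]
    refine Finset.sum_congr rfl fun i _ => ?_
    have h2 : S ^ i * Q * T = S ^ (i + 1) * Q := by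
      rw [mul_assoc, h, ← mul_assoc, ← pow_succ]
    rw [ha]
    simp only
    rw [Matrix.mulVec_mulVec, h2, pow_succ κ i, mul_inv]
    field_simp
  have h3 : ∑ i ∈ Finset.range N, a (i + 1) = ∑ i ∈ Finset.range N, a i + a N - a 0 := by
    have h4 := Finset.sum_range_succ a N
    have h5 := Finset.sum_range_succ' a N
    linarith
  have h6 : a N ≤ a 0 := by
    rw [ha]
    simp only [pow_zero, inv_one, one_mul]
    rw [← Matrix.mulVec_mulVec]
    have h7 := Matrix.linfty_opNorm_mulVec (S ^ N) (Q.mulVec v)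
    have h8 := mul_le_mul_of_nonneg_right hN (norm_nonneg (Q.mulVec v))
    have h9 : 0 < κ ^ N := pow_pos hκ N
    rw [inv_mul_le_iff₀ h9]
    exact h7.trans h8
  rw [h1, h3]
  have h10 : nrm S Q κ N v = ∑ i ∈ Finset.range N, a i := rfl
  rw [h10]
  exact mul_le_mul_of_nonneg_left (by linarith) hκ.le

theorem nrm_grow (hκ : 0 < κ) (hTS : T * S = S * T) (hTQ : T * Q = Q * T) (v : Fin (n + 1) → ℂ) :
    nrm S Q κ N (T.mulVec v) ≤ ‖T‖ * nrm S Q κ N v := by
  unfold nrm
  rw [Finset.mul_sum]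
  refine Finset.sum_le_sum fun i _ => ?_
  have hc : Commute T (S ^ i) := (show Commute T S from hTS).pow_right i
  have h2 : S ^ i * Q * T = T * (S ^ i * Q) := by
    rw [mul_assoc, ← hTQ, ← mul_assoc, ← hc.eq, mul_assoc]
  rw [Matrix.mulVec_mulVec, h2, ← Matrix.mulVec_mulVec, mul_left_comm]
  exact mul_le_mul_of_nonneg_left (Matrix.linfty_opNorm_mulVec _ _)
    (inv_nonneg.mpr (pow_nonneg hκ.le _))

end

theorem eigen {n : ℕ} {T : MC n} {μ : ℂ} {v : Fin (n + 1) → ℂ} (h : T.mulVec v = μ • v) (q : ℝ[X]) :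
    (aeval T q).mulVec v = (aeval μ q) • v := by
  have hp : ∀ k : ℕ, (T ^ k).mulVec v = μ ^ k • v := by
    intro k
    induction k with
    | zero => simp
    | succ k ih => rw [pow_succ, ← Matrix.mulVec_mulVec, h, Matrix.mulVec_smul, ih, smul_smul, pow_succ, mul_comm]
  induction q using Polynomial.induction_on' with
  | add p q hp hq => rw [map_add, map_add, Matrix.add_mulVec, hp, hq, add_smul]
  | monomial k r =>
    rw [aeval_monomial, aeval_monomial, Matrix.algebraMap_eq_diagonal, ← Matrix.mulVec_mulVec, hp]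
    funext i
    rw [Matrix.mulVec_diagonal]
    simp only [Pi.smul_apply, smul_eq_mul, Pi.algebraMap_apply]
    ring

theorem spec {n : ℕ} {T Q : MC n} (hQ : Q * Q = Q) (hc : Q * T = T * Q) {μ : ℂ}
    (h : μ ∈ spectrum ℂ (T * Q)) : μ = 0 ∨ ∃ v : Fin (n + 1) → ℂ, v ≠ 0 ∧ T.mulVec v = μ • v ∧
      Q.mulVec v = v := by
  rw [spectrum.mem_iff, Matrix.isUnit_iff_isUnit_det, isUnit_iff_ne_zero, not_not,
    ← Matrix.exists_mulVec_eq_zero_iff] at h
  obtain ⟨v, hv, h1⟩ := h
  rw [Matrix.sub_mulVec, sub_eq_zero, Algebra.algebraMap_eq_smul_one, Matrix.smul_mulVec,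
    Matrix.one_mulVec] at h1
  by_cases hμ : μ = 0
  · exact Or.inl hμ
  right
  have h2 : Q.mulVec (μ • v) = μ • v := by
    rw [h1, Matrix.mulVec_mulVec, ← mul_assoc, hc, mul_assoc, hQ]
  have h3 : Q.mulVec v = v := by
    rw [Matrix.mulVec_smul] at h2
    have := congrArg (fun w => μ⁻¹ • w) h2
    simpa [smul_smul, inv_mul_cancel₀ hμ] using this
  refine ⟨v, hv, ?_, h3⟩
  rw [← Matrix.mulVec_mulVec, h3] at h1
  exact h1.symm

end Pool.Agent.J6H97.CH31
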