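import Pool.Agent.J6H54.CH.Stm
import Pool.Agent.J6H97.CH.M31a

/-!
# CH-31: the hyperbolic structure of a hyperbolic integral matrix
-/

set_option autoImplicit false
set_option maxHeartbeats 1000000

namespace Pool.Agent.J6H97.CH31

open Polynomial Pool.Agent.J6H54.CH

attribute [local instance] Matrix.linftyOpNormedRing Matrix.linftyOpNormedAlgebra

/-- integral vectors as complex vectors -/
def cst {n : ℕ} (x : Fin (n + 1) → ℤ) : Fin (n + 1) → ℂ := fun i => (x i : ℂ)

theorem cst_mul {n : ℕ} (A : Matrix (Fin (n + 1)) (Fin (n + 1)) ℤ) (x : Fin (n + 1) → ℤ) :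
    cst (A.mulVec x) = (A.map (Int.castRingHom ℂ)).mulVec (cst x) := by
  funext i
  exact RingHom.map_mulVec (Int.castRingHom ℂ) A x i

theorem cst_sub {n : ℕ} (x y : Fin (n + 1) → ℤ) : cst (x - y) = cst x - cst y := by
  funext i
  simp [cst]

theorem cst_add {n : ℕ} (x y : Fin (n + 1) → ℤ) : cst (x + y) = cst x + cst y := by
  funext i
  simp [cst]

theorem cst_neg {n : ℕ} (x : Fin (n + 1) → ℤ) : cst (-x) = -cst x := by
  funext i
  simp [cst]

theorem cst_zero {n : ℕ} : cst (0 : Fin (n + 1) → ℤ) = 0 := by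
  funext i
  simp [cst]

/-- real matrices as complex matrices -/
noncomputable def toC (n : ℕ) : Matrix (Fin (n + 1)) (Fin (n + 1)) ℝ →ₐ[ℝ] MC n :=
  (Algebra.ofId ℝ ℂ).mapMatrix

theorem toC_mul {n : ℕ} (A : Matrix (Fin (n + 1)) (Fin (n + 1)) ℝ) (x : Fin (n + 1) → ℝ) :
    (fun i => ((A.mulVec x i : ℝ) : ℂ)) = (toC n A).mulVec (fun i => ((x i : ℝ) : ℂ)) := by
  funext i
  exact RingHom.map_mulVec Complex.ofRealHom A x i

/-- the spectral decomposition of a hyperbolic matrix -/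
theorem decomp {n : ℕ} (Az Bz : Matrix (Fin (n + 1)) (Fin (n + 1)) ℤ) (hAB : Az * Bz = 1)
    (hroot : ∀ μ : ℂ, (Az.charpoly.map (Int.castRingHom ℂ)).IsRoot μ → ‖μ‖ ≠ 1) :
    ∃ (Pr Qr : Matrix (Fin (n + 1)) (Fin (n + 1)) ℝ) (κ : ℝ) (N N' : ℕ), 0 < κ ∧ κ < 1 ∧ 1 ≤ N ∧ 1 ≤ N' ∧
      Pr + Qr = 1 ∧ Pr * Qr = 0 ∧ Qr * Pr = 0 ∧
      toC n Pr * (Az.map (Int.castRingHom ℂ)) = (Az.map (Int.castRingHom ℂ)) * toC n Pr ∧
      toC n Qr * (Az.map (Int.castRingHom ℂ)) = (Az.map (Int.castRingHom ℂ)) * toC n Qr ∧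
      toC n Pr * (Bz.map (Int.castRingHom ℂ)) = (Bz.map (Int.castRingHom ℂ)) * toC n Pr ∧
      toC n Qr * (Bz.map (Int.castRingHom ℂ)) = (Bz.map (Int.castRingHom ℂ)) * toC n Qr ∧
      ‖((Az.map (Int.castRingHom ℂ)) * toC n Qr) ^ N‖ ≤ κ ^ N ∧
      ‖((Bz.map (Int.castRingHom ℂ)) * toC n Pr) ^ N'‖ ≤ κ ^ N' := by
  have hBA : Bz * Az = 1 := mul_eq_one_comm.mp hAB
  set T : MC n := Az.map (Int.castRingHom ℂ) with hT
  set T' : MC n := Bz.map (Int.castRingHom ℂ) with hT'
  have hTT' : T * T' = 1 := by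
    rw [hT, hT', ← Matrix.map_mul, hAB]
    simp
  have hT'T : T' * T = 1 := by
    rw [hT, hT', ← Matrix.map_mul, hBA]
    simp
  set Ar : Matrix (Fin (n + 1)) (Fin (n + 1)) ℝ := Az.map (Int.castRingHom ℝ) with hAr
  have hArT : toC n Ar = T := by
    ext i j
    simp [toC, hAr, hT]
  set p : ℝ[X] := Az.charpoly.map (Int.castRingHom ℝ) with hp
  have hpA : p = Ar.charpoly := by rw [hp, hAr, Matrix.charpoly_map]
  have hp0 : p ≠ 0 := by
    rw [hpA]
    exact (Matrix.charpoly_monic Ar).ne_zero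
  have hpr : ∀ μ : ℂ, aeval μ p = 0 → ‖μ‖ ≠ 1 := by
    intro μ h
    apply hroot μ
    rw [IsRoot.def, eval_map]
    rw [hp, aeval_def, eval₂_map] at h
    rw [← h]
    congr 1
  obtain ⟨f, g, hfg, hf, hg⟩ := factor _ p rfl hp0 hpr
  have hcop : IsCoprime f g := by
    rw [isCoprime_iff_aeval_ne_zero_of_isAlgClosed ℝ ℂ]
    intro μ
    by_contra h
    push Not at h
    have h1 := hf μ h.1
    have h2 := hg μ h.2
    linarith
  obtain ⟨a, b, hab⟩ := hcop
  have hCH : aeval Ar (f * g) = 0 := by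
    rw [← hfg, hpA]
    exact Matrix.aeval_self_charpoly Ar
  have hCT : aeval T (f * g) = 0 := by
    rw [← hArT, aeval_algHom_apply, hCH, map_zero]
  set Pr := aeval Ar (a * f) with hPr
  set Qr := aeval Ar (b * g) with hQr
  have hPc : toC n Pr = aeval T (a * f) := by rw [hPr, ← aeval_algHom_apply, hArT]
  have hQc : toC n Qr = aeval T (b * g) := by rw [hQr, ← aeval_algHom_apply, hArT]
  have h1 : Pr + Qr = 1 := by rw [hPr, hQr, ← map_add, hab, map_one]
  have h2 : Pr * Qr = 0 := by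
    rw [hPr, hQr, ← map_mul, show a * f * (b * g) = a * b * (f * g) by ring, map_mul, hCH, mul_zero]
  have h3 : Qr * Pr = 0 := by
    rw [hPr, hQr, ← map_mul, show b * g * (a * f) = a * b * (f * g) by ring, map_mul, hCH, mul_zero]
  have hPP : Pr * Pr = Pr := by
    have : Pr * (Pr + Qr) = Pr := by rw [h1, mul_one]
    rwa [mul_add, h2, add_zero] at this
  have hQQ : Qr * Qr = Qr := by
    have : Qr * (Pr + Qr) = Qr := by rw [h1, mul_one]
    rwa [mul_add, h3, zero_add] at this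
  have hcomm : ∀ q : ℝ[X], aeval T q * T = T * aeval T q := by
    intro q
    have e1 : aeval T (q * X) = aeval T (X * q) := by rw [mul_comm]
    rwa [map_mul, map_mul, aeval_X] at e1
  have hcomm' : ∀ q : ℝ[X], aeval T q * T' = T' * aeval T q := by
    intro q
    calc aeval T q * T' = (T' * T) * aeval T q * T' := by rw [hT'T, one_mul]
      _ = T' * (T * aeval T q) * T' := by rw [mul_assoc T']
      _ = T' * (aeval T q * T) * T' := by rw [hcomm]
      _ = T' * aeval T q * (T * T') := by simp only [mul_assoc]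
      _ = T' * aeval T q := by rw [hTT', mul_one]
  have hPPc : toC n Pr * toC n Pr = toC n Pr := by rw [← map_mul, hPP]
  have hQQc : toC n Qr * toC n Qr = toC n Qr := by rw [← map_mul, hQQ]
  have c1 : toC n Pr * T = T * toC n Pr := by rw [hPc]; exact hcomm _
  have c2 : toC n Qr * T = T * toC n Qr := by rw [hQc]; exact hcomm _
  have c3 : toC n Pr * T' = T' * toC n Pr := by rw [hPc]; exact hcomm' _
  have c4 : toC n Qr * T' = T' * toC n Qr := by rw [hQc]; exact hcomm' _
  have key : ∀ {μ : ℂ} {v : Fin (n + 1) → ℂ}, v ≠ 0 → T.mulVec v = μ • v →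
      aeval μ f = 0 ∨ aeval μ g = 0 := by
    intro μ v hv h
    have e1 := eigen h (f * g)
    rw [hCT, Matrix.zero_mulVec, map_mul] at e1
    have e2 := (smul_eq_zero.mp e1.symm).resolve_right hv
    exact mul_eq_zero.mp e2
  have s1 : ∀ μ ∈ spectrum ℂ (T * toC n Qr), ‖μ‖ < 1 := by
    intro μ hμ
    rcases spec hQQc c2 hμ with rfl | ⟨v, hv, e1, e2⟩
    · simp
    · rcases key hv e1 with e3 | e3
      · exact hf μ e3
      · exfalso
        rw [hQc, eigen e1, map_mul, e3, mul_zero, zero_smul] at e2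
        exact hv e2.symm
  have s2 : ∀ μ ∈ spectrum ℂ (T' * toC n Pr), ‖μ‖ < 1 := by
    intro μ hμ
    rcases spec hPPc c3 hμ with rfl | ⟨v, hv, e1, e2⟩
    · simp
    · have e0 : T.mulVec (T'.mulVec v) = v := by rw [Matrix.mulVec_mulVec, hTT', Matrix.one_mulVec]
      rw [e1, Matrix.mulVec_smul] at e0
      have hμ0 : μ ≠ 0 := by
        rintro rfl
        rw [zero_smul] at e0
        exact hv e0.symm
      have e4 : T.mulVec v = μ⁻¹ • v := by
        have := congrArg (fun w => μ⁻¹ • w) e0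
        simpa [smul_smul, inv_mul_cancel₀ hμ0] using this
      rcases key hv e4 with e3 | e3
      · exfalso
        rw [hPc, eigen e4, map_mul, e3, mul_zero, zero_smul] at e2
        exact hv e2.symm
      · have e5 := hg _ e3
        rw [norm_inv] at e5
        exact (one_lt_inv₀ (norm_pos_iff.mpr hμ0)).mp e5
  obtain ⟨κ1, k1, k2, N1, k3, k4⟩ := pow_small _ s1
  obtain ⟨κ2, l1, l2, N2, l3, l4⟩ := pow_small _ s2
  refine ⟨Pr, Qr, max κ1 κ2, N1, N2, lt_max_of_lt_left k1, max_lt k2 l2, k3, l3, h1, h2, h3, c1, c2, c3,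
    c4, ?_, ?_⟩
  · exact k4.trans (pow_le_pow_left₀ k1.le (le_max_left _ _) _)
  · exact l4.trans (pow_le_pow_left₀ l1.le (le_max_right _ _) _)

theorem m31 : S_gen := by
  intro n σ hσ
  classical
  set Az : Matrix (Fin (n + 1)) (Fin (n + 1)) ℤ := LinearMap.toMatrix' σ.toLinearMap with hAz
  set Bz : Matrix (Fin (n + 1)) (Fin (n + 1)) ℤ := LinearMap.toMatrix' σ.symm.toLinearMap with hBz
  have hAB : Az * Bz = 1 := by
    rw [hAz, hBz, ← LinearMap.toMatrix'_comp]
    have : σ.toLinearMap ∘ₗ σ.symm.toLinearMap = LinearMap.id := by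
      apply LinearMap.ext
      intro x
      simp
    rw [this, LinearMap.toMatrix'_id]
  have hBA : Bz * Az = 1 := mul_eq_one_comm.mp hAB
  have hchar : Az.charpoly = LinearMap.charpoly σ.toLinearMap := by
    rw [hAz, ← LinearMap.toMatrix_eq_toMatrix', LinearMap.charpoly_toMatrix]
  obtain ⟨Pr, Qr, κ, N, N', hκ0, hκ1, hN, hN', h1, h2, h3, c1, c2, c3, c4, n1, n2⟩ :=
    decomp Az Bz hAB (by rw [hchar]; exact hσ)
  set T : MC n := Az.map (Int.castRingHom ℂ) with hT
  set T' : MC n := Bz.map (Int.castRingHom ℂ) with hT'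
  set P : MC n := toC n Pr with hP
  set Q : MC n := toC n Qr with hQ
  have hTT' : T * T' = 1 := by
    rw [hT, hT', ← Matrix.map_mul, hAB]
    simp
  have hT'T : T' * T = 1 := by
    rw [hT, hT', ← Matrix.map_mul, hBA]
    simp
  have hPQ1 : P + Q = 1 := by rw [hP, hQ, ← map_add, h1, map_one]
  have hPQ : P * Q = 0 := by rw [hP, hQ, ← map_mul, h2, map_zero]
  have hQP : Q * P = 0 := by rw [hP, hQ, ← map_mul, h3, map_zero]
  have hPP : P * P = P := by
    have : P * (P + Q) = P := by rw [hPQ1, mul_one]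
    rwa [mul_add, hPQ, add_zero] at this
  have hQQ : Q * Q = Q := by
    have : Q * (P + Q) = Q := by rw [hPQ1, mul_one]
    rwa [mul_add, hQP, zero_add] at this
  have hs : ∀ x, cst (σ x) = T.mulVec (cst x) := by
    intro x
    rw [hT, ← cst_mul, hAz, LinearMap.toMatrix'_mulVec]
    rfl
  have hs' : ∀ x, cst (σ⁻¹ x) = T'.mulVec (cst x) := by
    intro x
    rw [hT', ← cst_mul, hBz, LinearMap.toMatrix'_mulVec]
    rfl
  have hsum : ∀ v : Fin (n + 1) → ℂ, ‖v‖ ≤ ‖P.mulVec v‖ + ‖Q.mulVec v‖ := by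
    intro v
    have e : v = P.mulVec v + Q.mulVec v := by rw [← Matrix.add_mulVec, hPQ1, Matrix.one_mulVec]
    calc ‖v‖ = ‖P.mulVec v + Q.mulVec v‖ := by rw [← e]
      _ ≤ _ := norm_add_le _ _
  set K1 : ℝ := ∑ i ∈ Finset.range N', (κ ^ i)⁻¹ * ‖(T' * P) ^ i * P‖ with hK1
  set K2 : ℝ := ∑ i ∈ Finset.range N, (κ ^ i)⁻¹ * ‖(T * Q) ^ i * Q‖ with hK2
  have hK10 : 0 ≤ K1 := Finset.sum_nonneg fun _ _ => mul_nonneg (inv_nonneg.mpr (pow_nonneg hκ0.le _)) (norm_nonneg _)
  have hK20 : 0 ≤ K2 := Finset.sum_nonneg fun _ _ => mul_nonneg (inv_nonneg.mpr (pow_nonneg hκ0.le _)) (norm_nonneg _)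
  have hbd : ∀ x, ‖cst x‖ ≤ nrm (T' * P) P κ N' (cst x) + nrm (T * Q) Q κ N (cst x) := fun x =>
    (hsum (cst x)).trans (add_le_add (nrm_ge hκ0 hN' _) (nrm_ge hκ0 hN _))
  refine ⟨fun x => nrm (T' * P) P κ N' (cst x), fun x => nrm (T * Q) Q κ N (cst x), κ,
    max 1 (max ‖T‖ ‖T'‖), max 1 (max K1 K2), ?_⟩
  refine
    { κ_pos := hκ0
      κ_lt := hκ1
      one_le_M := le_max_left _ _
      one_le_C0 := le_max_left _ _
      p_nonneg := fun x => nrm_nonneg hκ0 _
      q_nonneg := fun x => nrm_nonneg hκ0 _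
      p_zero := by rw [cst_zero, nrm_zero]
      q_zero := by rw [cst_zero, nrm_zero]
      p_neg := fun x => by rw [cst_neg, nrm_neg]
      q_neg := fun x => by rw [cst_neg, nrm_neg]
      p_add := fun x y => by rw [cst_add]; exact nrm_add hκ0 _ _
      q_add := fun x y => by rw [cst_add]; exact nrm_add hκ0 _ _
      p_contr := fun x => by
        rw [hs']
        exact nrm_contr hκ0 n2 (by rw [mul_assoc, hPP, c3]) _
      q_contr := fun x => by
        rw [hs]
        exact nrm_contr hκ0 n1 (by rw [mul_assoc, hQQ, c2]) _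
      p_grow := fun x => by
        rw [hs]
        refine (nrm_grow hκ0 ?_ c1.symm _).trans ?_
        · rw [← mul_assoc, hTT', one_mul, mul_assoc, c1, ← mul_assoc, hT'T, one_mul]
        · exact mul_le_mul_of_nonneg_right ((le_max_left _ _).trans (le_max_right _ _)) (nrm_nonneg hκ0 _)
      q_grow := fun x => by
        rw [hs']
        refine (nrm_grow hκ0 ?_ c4.symm _).trans ?_
        · rw [← mul_assoc, hT'T, one_mul, mul_assoc, c4, ← mul_assoc, hTT', one_mul]
        · exact mul_le_mul_of_nonneg_right ((le_max_right _ _).trans (le_max_right _ _)) (nrm_nonneg hκ0 _)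
      fin := ?_
      sep := ?_
      appr := ?_
      nontriv := ⟨fun _ => 1, fun h => one_ne_zero (congrFun h 0)⟩ }
  · intro B
    refine (Set.finite_Icc (fun _ : Fin (n + 1) => -⌈2 * B⌉) (fun _ => ⌈2 * B⌉)).subset ?_
    rintro x ⟨hx1, hx2⟩
    have e1 : ‖cst x‖ ≤ 2 * B := by
      have := hbd x
      linarith
    have e2 : ∀ i, |((x i : ℤ) : ℝ)| ≤ ((⌈2 * B⌉ : ℤ) : ℝ) := by
      intro i
      have e3 := norm_le_pi_norm (cst x) i
      have e4 : ‖cst x i‖ = |((x i : ℤ) : ℝ)| := by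
        unfold cst
        exact Complex.norm_intCast _
      rw [e4] at e3
      exact (e3.trans e1).trans (Int.le_ceil _)
    rw [Set.mem_Icc]
    constructor
    · intro i
      have := (abs_le.mp (e2 i)).1
      exact_mod_cast this
    · intro i
      have := (abs_le.mp (e2 i)).2
      exact_mod_cast this
  · intro x hx1 hx2
    have e1 := hbd x
    rw [hx1, hx2, add_zero] at e1
    have e2 : cst x = 0 := norm_le_zero_iff.mp e1
    funext i
    have e3 := congrFun e2 i
    have e4 : ((x i : ℤ) : ℂ) = 0 := e3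
    exact_mod_cast e4
  · intro x y
    set w : Fin (n + 1) → ℝ := Pr.mulVec (fun i => (x i : ℝ)) + Qr.mulVec (fun i => (y i : ℝ)) with hw
    set z : Fin (n + 1) → ℤ := fun i => round (w i) with hz
    set wc : Fin (n + 1) → ℂ := fun i => ((w i : ℝ) : ℂ) with hwc
    have e1 : wc = P.mulVec (cst x) + Q.mulVec (cst y) := by
      have a1 := toC_mul Pr (fun i => (x i : ℝ))
      have a2 := toC_mul Qr (fun i => (y i : ℝ))
      have a3 : (fun i => (((x i : ℤ) : ℝ) : ℂ)) = cst x := by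
        funext i
        simp [cst]
      have a4 : (fun i => (((y i : ℤ) : ℝ) : ℂ)) = cst y := by
        funext i
        simp [cst]
      rw [a3] at a1
      rw [a4] at a2
      rw [hP, hQ, ← a1, ← a2]
      funext i
      simp [hwc, hw]
    have e2 : ‖wc - cst z‖ ≤ 1 := by
      rw [pi_norm_le_iff_of_nonneg zero_le_one]
      intro i
      have a1 : (wc - cst z) i = (((w i - (round (w i) : ℤ) : ℝ)) : ℂ) := by
        simp [hwc, hz, cst]
      rw [a1, Complex.norm_real, Real.norm_eq_abs]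
      have := abs_sub_round (w i)
      linarith
    refine ⟨z, ?_, ?_⟩
    · have e3 : P.mulVec (cst (x - z)) = P.mulVec (wc - cst z) := by
        rw [cst_sub, Matrix.mulVec_sub, Matrix.mulVec_sub, e1, Matrix.mulVec_add, Matrix.mulVec_mulVec,
          Matrix.mulVec_mulVec, hPP, hPQ, Matrix.zero_mulVec, add_zero]
      show nrm (T' * P) P κ N' (cst (x - z)) ≤ _
      rw [nrm_congr e3]
      calc _ ≤ K1 * ‖wc - cst z‖ := nrm_le hκ0 _
        _ ≤ K1 * 1 := mul_le_mul_of_nonneg_left e2 hK10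
        _ ≤ _ := by rw [mul_one]; exact (le_max_left _ _).trans (le_max_right _ _)
    · have e3 : Q.mulVec (cst (y - z)) = Q.mulVec (wc - cst z) := by
        rw [cst_sub, Matrix.mulVec_sub, Matrix.mulVec_sub, e1, Matrix.mulVec_add, Matrix.mulVec_mulVec,
          Matrix.mulVec_mulVec, hQQ, hQP, Matrix.zero_mulVec, zero_add]
      show nrm (T * Q) Q κ N (cst (y - z)) ≤ _
      rw [nrm_congr e3]
      calc _ ≤ K2 * ‖wc - cst z‖ := nrm_le hκ0 _
        _ ≤ K2 * 1 := mul_le_mul_of_nonneg_left e2 hK20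
        _ ≤ _ := by rw [mul_one]; exact (le_max_right _ _).trans (le_max_right _ _)

end Pool.Agent.J6H97.CH31
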